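import Mathlib
import Pool.Agent.Helper74.FB.PalS
import Pool.Agent.Helper74.FB.LowL

/-! # Clusters of palindromes `n` with `k + n` prime

For a positive proportion of the shifts `k ≤ X` there are `r` palindromes `n` with `2 N + 1` digits, which differ
only in their `2 g + 1` middle digits, such that all the numbers `k + n` are prime; here `b ^ N` may be any power of
`b` between a power of `log X` and `√X`. -/

set_option autoImplicit false

namespace Pool.Agent.Results.MP_e8d2ce_nt.ClustersOfShiftedPalindromes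

open Finset

/-- `n` is a base-`b` palindrome with exactly `2 N + 1` digits -/
def IsPal (b N n : ℕ) : Prop :=
  b ^ (2 * N) ≤ n ∧ n < b ^ (2 * N + 1) ∧ (Nat.digits b n).reverse = Nat.digits b n

/-- the number with the `2 g + 1` digits `y_g … y_1 y_0 y_1 … y_g`, where `y_g … y_1 y_0` are the digits of `y` -/
def mid (b g y : ℕ) : ℕ := y * b ^ g + ∑ i ∈ Icc 1 g, (y / b ^ i % b) * b ^ (g - i)

/-- for every prime `p` not dividing `b` there is `a` such that `p` divides none of the numbers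
`a + mid b g y`, `y ∈ Y` -/
def Admissible (b g : ℕ) (Y : Finset ℕ) : Prop :=
  ∀ p : ℕ, p.Prime → ¬ p ∣ b → ∃ a : ℤ, ∀ y ∈ Y, ¬ (p : ℤ) ∣ a + mid b g y

open Classical in
/-- the strings `w` of leading digits such that for all `y ∈ P` the palindrome `n` with `2 N + 1` digits and the
leading digits `w y` gives a prime `k + n` -/
noncomputable def clusters (b g N : ℕ) (P : Finset ℕ) (k : ℕ) : Finset ℕ :=
  (range (b ^ N)).filter (fun w => ∀ y ∈ P, ∃ n : ℕ, IsPal b N n ∧ n / b ^ (N + g + 1) = w ∧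
    n / b ^ N % b ^ (g + 1) = y ∧ (k + n).Prime)

/-- there are `r` strings of middle digits in `Y` with at least `B` such strings of leading digits -/
def HasClusters (b g N r : ℕ) (Y : Finset ℕ) (B : ℝ) (k : ℕ) : Prop :=
  ∃ P ⊆ Y, P.card = r ∧ B ≤ (((clusters b g N P k).card : ℕ) : ℝ)

open Classical in
/-- **Clusters of palindromes `n` with `k + n` prime.** -/
theorem result (r : ℕ) (hr : 1 ≤ r) : ∃ K A : ℕ, ∀ b : ℕ, 2 ≤ b → ∀ g : ℕ, ∀ Y ⊆ range (b ^ (g + 1)),
    K ≤ Y.card → Admissible b g Y → ∃ κ : ℝ, 0 < κ ∧ ∃ X₀ : ℕ, ∀ X : ℕ, X₀ ≤ X → ∀ N : ℕ,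
    Real.log X ^ A ≤ (b : ℝ) ^ N → (b : ℝ) ^ (2 * N) ≤ κ * X →
      κ * X ≤ (({k ∈ Icc 1 X | HasClusters b g N r Y (b ^ N / Real.log X ^ A) k}.card : ℕ) : ℝ) := by
  have hr' : (1 : ℝ) ≤ r := by exact_mod_cast hr
  obtain ⟨K, hKz, hK2, δ, hδ, D₀, c, hc, H⟩ := Pool.Agent.Helper74.FB.lowP_many (4 * r) r (by
    push_cast
    linarith)
  have H' : Pool.Agent.Helper74.FB.LowP (4 * r) K (Pool.Agent.Helper74.FB.Mny r) δ c D₀ := H D₀ le_rfl
  refine ⟨4 * r * K, 4 * r * K + 2, ?_⟩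
  intro b hb g Y hY hcard hadm
  have hb0 : 0 < b := by omega
  have hbr : (1 : ℝ) < b := by exact_mod_cast (by omega : 1 < b)
  obtain ⟨ys⟩ : Nonempty ((Fin (4 * r) × Fin K) ↪ {x // x ∈ Y}) := by
    apply Function.Embedding.nonempty_of_card_le
    simpa using hcard
  have hyl : ∀ x, ((ys x : ℕ)) < b ^ (g + 1) := fun x => mem_range.1 (hY (ys x).2)
  obtain ⟨κ, hκ, C, X₁, h1⟩ := Pool.Agent.Helper74.FB.palG (by omega : 1 ≤ 4 * r) hδ hc D₀ H' b hb g
    (fun j i => Pool.Agent.Helper74.FB.inn b g (ys (j, i)))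
    (by
      intro x x' hxx
      have e1 := Pool.Agent.Helper74.FB.inn_inj hb0 g hxx
      exact ys.injective (Subtype.ext e1))
    (by
      intro j i
      have e1 := hyl (j, i)
      have e2 := Pool.Agent.Helper74.FB.rv_lt hb0 g ((ys (j, i) : ℕ) / b)
      show (ys (j, i) : ℕ) * b ^ g + Pool.Agent.Helper74.FB.rv b g ((ys (j, i) : ℕ) / b) < _
      calc _ < (ys (j, i) : ℕ) * b ^ g + b ^ g := Nat.add_lt_add_left e2 _
        _ = ((ys (j, i) : ℕ) + 1) * b ^ g := by ring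
        _ ≤ b ^ (g + 1) * b ^ g := Nat.mul_le_mul_right _ e1
        _ = b ^ (2 * g + 1) := by rw [← pow_add]; congr 1; ring)
    (by
      intro p hp hpb
      obtain ⟨a, ha⟩ := hadm p (mem_filter.1 hp).2 hpb
      refine ⟨a, fun j i hd => ha _ (ys (j, i)).2 ?_⟩
      rw [Pool.Agent.Helper74.FB.inn_eq] at hd
      exact hd)
  generalize ⌊2 / δ⌋₊ = R at h1
  have tN : Filter.Tendsto (fun N : ℕ => (N : ℝ)) Filter.atTop Filter.atTop :=
    tendsto_natCast_atTop_atTop
  have hlog : Filter.Tendsto (fun N : ℕ => Real.log (N : ℝ)) Filter.atTop Filter.atTop :=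
    Real.tendsto_log_atTop.comp tN
  obtain ⟨X₂, hX₂⟩ := Filter.eventually_atTop.1
    (hlog.eventually_ge_atTop ((b : ℝ) ^ (g + 1) + (b : ℝ) ^ g / κ))
  have hC0 : (0 : ℝ) < (C : ℝ) + 1 := by positivity
  refine ⟨min κ (1 / (C + 1)), lt_min hκ (by positivity), max X₁ X₂, fun X hX N hN1 hN2 => ?_⟩
  have hX0 : (0 : ℝ) ≤ X := Nat.cast_nonneg X
  have hlX := hX₂ X ((le_max_right _ _).trans hX)
  have hbg : (0 : ℝ) < (b : ℝ) ^ g := by positivity
  have hbg1 : (0 : ℝ) < (b : ℝ) ^ (g + 1) := by positivity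
  have hbgκ : (0 : ℝ) < (b : ℝ) ^ g / κ := by positivity
  have hL1 : (b : ℝ) ^ (g + 1) ≤ Real.log X := by linarith
  have hL2 : (b : ℝ) ^ g / κ ≤ Real.log X := by linarith
  have hL0 : 0 < Real.log X := by linarith
  obtain ⟨hNg, hM1⟩ := Pool.Agent.Helper74.FB.digits_ineq (E := 4 * r * K + 1) hb hL1 hN1
  obtain ⟨M, rfl⟩ : ∃ M, N = M + g := ⟨N - g, by omega⟩
  have hM : 1 ≤ M := by omega
  rw [Nat.add_sub_cancel] at hM1
  have hC : C * b ^ (2 * M) ≤ X := by
    have e1 : (b : ℝ) ^ (2 * M) ≤ (b : ℝ) ^ (2 * (M + g)) := pow_le_pow_right₀ hbr.le (by omega)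
    have e2 : (b : ℝ) ^ (2 * M) ≤ 1 / (C + 1) * X :=
      e1.trans (hN2.trans (mul_le_mul_of_nonneg_right (min_le_right _ _) hX0))
    have e3 : ((C : ℝ) + 1) * (b : ℝ) ^ (2 * M) ≤ X := by
      calc ((C : ℝ) + 1) * (b : ℝ) ^ (2 * M) ≤ (C + 1) * (1 / (C + 1) * X) :=
            mul_le_mul_of_nonneg_left e2 hC0.le
        _ = X := by field_simp
    have e4 : (0 : ℝ) < (b : ℝ) ^ (2 * M) := by positivity
    have e5 : (C : ℝ) * (b : ℝ) ^ (2 * M) ≤ X := by linarith
    exact_mod_cast e5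
  refine (mul_le_mul_of_nonneg_right (min_le_left _ _) hX0).trans
    ((h1 X ((le_max_left _ _).trans hX) M hM hM1 hC).trans ?_)
  rw [Nat.cast_le]
  apply card_le_card
  intro k hk
  obtain ⟨hk1, hk2, S, σ, τ, hS, hcl⟩ := mem_filter.1 hk
  have hS' : r ≤ S.card := (Nat.le_succ r).trans hS
  have hinj : Function.Injective (fun j : Fin (4 * r) => (ys (j, σ j) : ℕ)) := by
    intro j j' hjj
    have e1 := ys.injective (Subtype.ext hjj)
    exact (Prod.ext_iff.1 e1).1
  obtain ⟨P, hP, hPc⟩ := exists_subset_card_eq (s := S.image (fun j : Fin (4 * r) => (ys (j, σ j) : ℕ)))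
    (n := r) (by rw [card_image_of_injective _ hinj]; exact hS')
  refine mem_filter.2 ⟨hk1, P, ?_, hPc, ?_⟩
  · intro y hy
    obtain ⟨j, _, rfl⟩ := mem_image.1 (hP hy)
    exact (ys (j, σ j)).2
  · have e1 : (b : ℝ) ^ (M + g) / Real.log X ^ (4 * r * K + 2) ≤
        κ * ((b : ℝ) ^ M / Real.log X ^ (4 * r * K + 1)) := by
      rw [div_le_iff₀ hκ] at hL2
      rw [div_le_iff₀ (by positivity), pow_add, pow_succ _ (4 * r * K + 1)]
      have e2 : κ * ((b : ℝ) ^ M / Real.log X ^ (4 * r * K + 1)) *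
          (Real.log X ^ (4 * r * K + 1) * Real.log X) = (b : ℝ) ^ M * (Real.log X * κ) := by
        field_simp
      rw [e2]
      exact mul_le_mul_of_nonneg_left hL2 (by positivity)
    refine e1.trans (hcl.trans ?_)
    rw [Nat.cast_le]
    apply card_le_card
    intro w hw
    obtain ⟨hw1, hw2, -, -⟩ := mem_filter.1 hw
    unfold clusters
    refine mem_filter.2 ⟨?_, fun y hy => ?_⟩
    · rw [mem_range]
      exact (mem_Ico.1 hw1).2.trans_le (Nat.pow_le_pow_right hb0 (by omega))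
    · obtain ⟨j, hj, rfl⟩ := mem_image.1 (hP hy)
      obtain ⟨n, hn1, hn2, hn3, hn4⟩ := Pool.Agent.Helper74.FB.outp_pal hb M g w (ys (j, σ j)) hM hw1
        (hyl (j, σ j))
      refine ⟨n, hn2, hn3, hn4, ?_⟩
      obtain ⟨q, hq, hq2⟩ := hw2 j hj
      have : k + n = q := by
        have e2 : ((k + n : ℕ) : ℤ) = q := by
          rw [hq2, hn1]
          push_cast
          ring
        exact_mod_cast e2
      rw [this]
      exact hq

end Pool.Agent.Results.MP_e8d2ce_nt.ClustersOfShiftedPalindromes
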