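import Mathlib
import Pool.Agent.Helper74.FB.PalS
import Pool.Agent.Helper74.FB.FinQ

/-! # Palindromes `n` with `k + n` prime and almost prime neighbours

For a positive proportion of the shifts `k ≤ X` there are palindromes `n` with `2 N + 1` digits and with a
prescribed string of middle digits such that `k + n` is prime, while `m` palindromes `n'`, which differ from `n` only in
the `2 g + 1` middle digits, give numbers `k + n'` with at most two prime factors. -/

set_option autoImplicit false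

namespace Pool.Agent.Results.MP_e8d2ce_nt.PrimesWithPalindromicNeighbours

open Finset

/-- `n` is the base-`b` palindrome with exactly `2 N + 1` digits, the leading digits `w` and then the `g + 1`
digits `y` (the last of them is the central digit) -/
def IsPal (b g N w y n : ℕ) : Prop :=
  (b ^ (2 * N) ≤ n ∧ n < b ^ (2 * N + 1) ∧ (Nat.digits b n).reverse = Nat.digits b n) ∧
    n / b ^ (N + g + 1) = w ∧ n / b ^ N % b ^ (g + 1) = y

/-- the number with the `2 g + 1` digits `y_g … y_1 y_0 y_1 … y_g`, where `y_g … y_1 y_0` are the digits of `y` -/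
def mid (b g y : ℕ) : ℕ := y * b ^ g + ∑ i ∈ Icc 1 g, (y / b ^ i % b) * b ^ (g - i)

/-- for every prime `p` not dividing `b` there is `a` such that `p` divides none of the numbers
`a + mid b g y`, `y ∈ Y` -/
def Admissible (b g : ℕ) (Y : Finset ℕ) : Prop :=
  ∀ p : ℕ, p.Prime → ¬ p ∣ b → ∃ a : ℤ, ∀ y ∈ Y, ¬ (p : ℤ) ∣ a + mid b g y

open Classical in
/-- the strings `w` of leading digits such that the palindrome `n` with `2 N + 1` digits and the leading digits `w y₀`
gives a prime `k + n`, and for all `y ∈ P` the palindrome `n` with the leading digits `w y` gives a number `k + n` with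
at most two prime factors, counted with multiplicity -/
noncomputable def clusters (b g N y₀ : ℕ) (P : Finset ℕ) (k : ℕ) : Finset ℕ :=
  (range (b ^ N)).filter (fun w => (∃ n : ℕ, IsPal b g N w y₀ n ∧ (k + n).Prime) ∧
    ∀ y ∈ P, ∃ n : ℕ, IsPal b g N w y n ∧ (k + n).primeFactorsList.length ≤ 2)

/-- there are `m` strings of middle digits in `Y`, different from `y₀`, with at least `B` such strings of leading
digits -/
def HasClusters (b g N m y₀ : ℕ) (Y : Finset ℕ) (B : ℝ) (k : ℕ) : Prop :=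
  ∃ P ⊆ Y.erase y₀, P.card = m ∧ B ≤ (((clusters b g N y₀ P k).card : ℕ) : ℝ)

open Classical in
/-- **Palindromes `n` with `k + n` prime and almost prime neighbours.** -/
theorem result (m : ℕ) : ∃ K A : ℕ, ∀ b : ℕ, 2 ≤ b → ∀ g : ℕ, ∀ Y ⊆ range (b ^ (g + 1)),
    K ≤ Y.card → Admissible b g Y → ∀ y₀ ∈ Y, ∃ κ : ℝ, 0 < κ ∧ ∃ X₀ : ℕ, ∀ X : ℕ, X₀ ≤ X → ∀ N : ℕ,
    Real.log X ^ A ≤ (b : ℝ) ^ N → (b : ℝ) ^ (2 * N) ≤ κ * X →
      κ * X ≤ (({k ∈ Icc 1 X | HasClusters b g N m y₀ Y (b ^ N / Real.log X ^ A) k}.card : ℕ) : ℝ) := by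
  obtain ⟨K, hKz, hK2, δ, hδ, D₀, c, hc, H⟩ := Pool.Agent.Helper74.FB.lowP_pin (m + 1) (by omega)
  set i₀ : Fin K := ⟨0, by omega⟩ with hi₀
  have H' := H D₀ le_rfl 0 i₀
  refine ⟨(m + 1) * K, (m + 1) * K + 2, ?_⟩
  intro b hb g Y hY hcard hadm y₀ hy₀
  have hb0 : 0 < b := by omega
  have hbr : (1 : ℝ) < b := by exact_mod_cast (by omega : 1 < b)
  obtain ⟨yt, hys⟩ : ∃ yt : (Fin (m + 1) × Fin K) ↪ {x // x ∈ Y}, (yt (0, i₀) : ℕ) = y₀ := by
    obtain ⟨ys⟩ : Nonempty ((Fin (m + 1) × Fin K) ↪ {x // x ∈ Y}) := by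
      apply Function.Embedding.nonempty_of_card_le
      simpa using hcard
    refine ⟨ys.trans (Equiv.swap (ys (0, i₀)) ⟨y₀, hy₀⟩).toEmbedding, ?_⟩
    simp
  have hyl : ∀ x, ((yt x : ℕ)) < b ^ (g + 1) := fun x => mem_range.1 (hY (yt x).2)
  obtain ⟨κ, hκ, C, X₁, h1⟩ := Pool.Agent.Helper74.FB.palG (by omega : 1 ≤ m + 1) hδ hc D₀ H' b hb g
    (fun j i => Pool.Agent.Helper74.FB.inn b g (yt (j, i)))
    (by
      intro x x' hxx
      have e1 := Pool.Agent.Helper74.FB.inn_inj hb0 g hxx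
      exact yt.injective (Subtype.ext e1))
    (by
      intro j i
      have e1 := hyl (j, i)
      have e2 := Pool.Agent.Helper74.FB.rv_lt hb0 g ((yt (j, i) : ℕ) / b)
      show (yt (j, i) : ℕ) * b ^ g + Pool.Agent.Helper74.FB.rv b g ((yt (j, i) : ℕ) / b) < _
      calc _ < (yt (j, i) : ℕ) * b ^ g + b ^ g := Nat.add_lt_add_left e2 _
        _ = ((yt (j, i) : ℕ) + 1) * b ^ g := by ring
        _ ≤ b ^ (g + 1) * b ^ g := Nat.mul_le_mul_right _ e1
        _ = b ^ (2 * g + 1) := by rw [← pow_add]; congr 1; ring)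
    (by
      intro p hp hpb
      obtain ⟨a, ha⟩ := hadm p (mem_filter.1 hp).2 hpb
      refine ⟨a, fun j i hd => ha _ (yt (j, i)).2 ?_⟩
      rw [Pool.Agent.Helper74.FB.inn_eq] at hd
      exact hd)
  generalize ⌊2 / δ⌋₊ = R at h1
  have tN : Filter.Tendsto (fun N : ℕ => (N : ℝ)) Filter.atTop Filter.atTop :=
    tendsto_natCast_atTop_atTop
  have hlog : Filter.Tendsto (fun N : ℕ => Real.log (N : ℝ)) Filter.atTop Filter.atTop :=
    Real.tendsto_log_atTop.comp tN
  obtain ⟨X₂, hX₂⟩ := Filter.eventually_atTop.1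
    (hlog.eventually_ge_atTop ((b : ℝ) ^ (g + 1) + (b : ℝ) ^ g / κ))
  have hC0 : (0 : ℝ) < (C : ℝ) + 1 := by positivity
  refine ⟨min κ (1 / (C + 1)), lt_min hκ (by positivity), max X₁ X₂, fun X hX N hN1 hN2 => ?_⟩
  have hX0 : (0 : ℝ) ≤ X := Nat.cast_nonneg X
  have hlX := hX₂ X ((le_max_right _ _).trans hX)
  have hbg : (0 : ℝ) < (b : ℝ) ^ g := by positivity
  have hbg1 : (0 : ℝ) < (b : ℝ) ^ (g + 1) := by positivity
  have hbgκ : (0 : ℝ) < (b : ℝ) ^ g / κ := by positivity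
  have hL1 : (b : ℝ) ^ (g + 1) ≤ Real.log X := by linarith
  have hL2 : (b : ℝ) ^ g / κ ≤ Real.log X := by linarith
  have hL0 : 0 < Real.log X := by linarith
  obtain ⟨hNg, hM1⟩ := Pool.Agent.Helper74.FB.digits_ineq (E := (m + 1) * K + 1) hb hL1 hN1
  obtain ⟨M, rfl⟩ : ∃ M, N = M + g := ⟨N - g, by omega⟩
  have hM : 1 ≤ M := by omega
  rw [Nat.add_sub_cancel] at hM1
  have hC : C * b ^ (2 * M) ≤ X := by
    have e1 : (b : ℝ) ^ (2 * M) ≤ (b : ℝ) ^ (2 * (M + g)) := pow_le_pow_right₀ hbr.le (by omega)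
    have e2 : (b : ℝ) ^ (2 * M) ≤ 1 / (C + 1) * X :=
      e1.trans (hN2.trans (mul_le_mul_of_nonneg_right (min_le_right _ _) hX0))
    have e3 : ((C : ℝ) + 1) * (b : ℝ) ^ (2 * M) ≤ X := by
      calc ((C : ℝ) + 1) * (b : ℝ) ^ (2 * M) ≤ (C + 1) * (1 / (C + 1) * X) :=
            mul_le_mul_of_nonneg_left e2 hC0.le
        _ = X := by field_simp
    have e4 : (0 : ℝ) < (b : ℝ) ^ (2 * M) := by positivity
    have e5 : (C : ℝ) * (b : ℝ) ^ (2 * M) ≤ X := by linarith
    exact_mod_cast e5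
  refine (mul_le_mul_of_nonneg_right (min_le_left _ _) hX0).trans
    ((h1 X ((le_max_left _ _).trans hX) M hM hM1 hC).trans ?_)
  rw [Nat.cast_le]
  apply card_le_card
  intro k hk
  obtain ⟨hk1, hk2, S, σ, τ, ⟨hS, hσ⟩, hcl⟩ := mem_filter.1 hk
  have hinj : Function.Injective (fun j : Fin (m + 1) => (yt (j, τ j) : ℕ)) := by
    intro j j' hjj
    have e1 := yt.injective (Subtype.ext hjj)
    exact (Prod.ext_iff.1 e1).1
  refine mem_filter.2 ⟨hk1, ((univ : Finset (Fin (m + 1))).erase 0).image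
    (fun j : Fin (m + 1) => (yt (j, τ j) : ℕ)), ?_, ?_, ?_⟩
  · intro y hy
    obtain ⟨j, hj, rfl⟩ := mem_image.1 hy
    refine mem_erase.2 ⟨fun h => ?_, (yt (j, τ j)).2⟩
    rw [← hys] at h
    have e1 := yt.injective (Subtype.ext h)
    exact (mem_erase.1 hj).1 (Prod.ext_iff.1 e1).1
  · rw [card_image_of_injective _ hinj, card_erase_of_mem (mem_univ _), card_univ, Fintype.card_fin]
    rfl
  · have e1 : (b : ℝ) ^ (M + g) / Real.log X ^ ((m + 1) * K + 2) ≤
        κ * ((b : ℝ) ^ M / Real.log X ^ ((m + 1) * K + 1)) := by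
      rw [div_le_iff₀ hκ] at hL2
      rw [div_le_iff₀ (by positivity), pow_add, pow_succ _ ((m + 1) * K + 1)]
      have e2 : κ * ((b : ℝ) ^ M / Real.log X ^ ((m + 1) * K + 1)) *
          (Real.log X ^ ((m + 1) * K + 1) * Real.log X) = (b : ℝ) ^ M * (Real.log X * κ) := by
        field_simp
      rw [e2]
      exact mul_le_mul_of_nonneg_left hL2 (by positivity)
    refine e1.trans (hcl.trans ?_)
    rw [Nat.cast_le]
    apply card_le_card
    intro w hw
    obtain ⟨hw1, hw2, hw3, -⟩ := mem_filter.1 hw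
    have hkey : ∀ j i, ∃ n : ℕ, IsPal b g (M + g) w (yt (j, i)) n ∧
        (n : ℤ) = ((Pool.Agent.Helper74.FB.outp b M g w +
          b ^ M * Pool.Agent.Helper74.FB.inn b g (yt (j, i)) : ℕ) : ℤ) := by
      intro j i
      obtain ⟨n, hn1, hn2, hn3, hn4⟩ := Pool.Agent.Helper74.FB.outp_pal hb M g w (yt (j, i)) hM hw1
        (hyl (j, i))
      exact ⟨n, ⟨hn2, hn3, hn4⟩, by rw [hn1]⟩
    unfold clusters
    refine mem_filter.2 ⟨?_, ?_, fun y hy => ?_⟩
    · rw [mem_range]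
      exact (mem_Ico.1 hw1).2.trans_le (Nat.pow_le_pow_right hb0 (by omega))
    · obtain ⟨n, hn1, hn2⟩ := hkey 0 i₀
      rw [hys] at hn1
      refine ⟨n, hn1, ?_⟩
      obtain ⟨q, hq, hq2⟩ := hw2 0 hS
      rw [hσ] at hq2
      have : k + n = q := by
        have e2 : ((k + n : ℕ) : ℤ) = q := by
          rw [hq2]
          push_cast
          push_cast at hn2
          rw [hn2]
        exact_mod_cast e2
      rw [this]
      exact hq
    · obtain ⟨j, hj, rfl⟩ := mem_image.1 hy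
      obtain ⟨n, hn1, hn2⟩ := hkey j (τ j)
      refine ⟨n, hn1, ?_⟩
      obtain ⟨q, hq, hq2, hq3⟩ := hw3 j
      have : k + n = q := by
        have e2 : ((k + n : ℕ) : ℤ) = q := by
          rw [hq2]
          push_cast
          push_cast at hn2
          rw [hn2]
        exact_mod_cast e2
      rw [this]
      exact hq3

end Pool.Agent.Results.MP_e8d2ce_nt.PrimesWithPalindromicNeighbours
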