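import Mathlib
import Pool.Agent.Helper74.FB.PalDense
import Pool.Agent.Helper74.FB.PalInv

/-! # Linear forms which are simultaneously prime at a palindrome of an arbitrary dense set

`𝒬` is any set of at least `c b ^ N` palindromes with exactly `2 N + 1` digits in base `b`, and `(a i, t i)`, `i ∈ I`,
are sufficiently many pairs of integers. For a positive proportion of the `J`-tuples of shifts `k j ≤ X` there are `r`
of the pairs such that for many `n ∈ 𝒬` all the `J r` numbers `k j + a i * n + t i` are primes. -/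

set_option autoImplicit false

namespace Pool.Agent.Results.MP_e8d2ce_nt.SimultaneousPrimesAtPalindromes

open Finset

/-- `n` is a base-`b` palindrome with exactly `2 N + 1` digits -/
def IsPal (b N n : ℕ) : Prop :=
  b ^ (2 * N) ≤ n ∧ n < b ^ (2 * N + 1) ∧ (Nat.digits b n).reverse = Nat.digits b n

/-- the integer `z` is a (positive) prime -/
def IsPrime (z : ℤ) : Prop := ∃ q : ℕ, q.Prime ∧ (q : ℤ) = z

/-- the pairs `(a i, t i)`, `i ∈ I`, are distinct, `a i ≠ 0`, and for every prime `p` and every integer `u` the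
numbers `a i * u + t i` miss a class modulo `p` -/
def Admissible (I : Finset ℕ) (a t : ℕ → ℤ) : Prop :=
  (∀ i ∈ I, ∀ i' ∈ I, a i = a i' → t i = t i' → i = i') ∧ (∀ i ∈ I, a i ≠ 0) ∧
    ∀ p : ℕ, p.Prime → ∀ u : ℤ, ∃ w : ℤ, ∀ i ∈ I, ¬ (p : ℤ) ∣ w + (a i * u + t i)

open Classical in
/-- for `r` of the pairs at least `B` of the `n ∈ 𝒬` give primes `k j + a i * n + t i` for all `j` and for all these
pairs -/
def Many {J : ℕ} (I : Finset ℕ) (a t : ℕ → ℤ) (r : ℕ) (𝒬 : Finset ℕ) (B : ℝ) (k : Fin J → ℕ) : Prop :=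
  ∃ P ⊆ I, P.card = r ∧
    B ≤ (((𝒬.filter (fun n : ℕ => ∀ j, ∀ i ∈ P, IsPrime (k j + (a i * n + t i)))).card : ℕ) : ℝ)

open Classical in
/-- **Simultaneous primes at a palindrome of an arbitrary dense set.** -/
theorem result (J r : ℕ) (hr : 1 ≤ r) : ∃ K A : ℕ, ∀ b : ℕ, 2 ≤ b → ∀ (I : Finset ℕ) (a t : ℕ → ℤ), K ≤ I.card →
    Admissible I a t → ∀ c : ℝ, 0 < c →
    ∃ κ : ℝ, 0 < κ ∧ ∃ X₀ : ℕ, ∀ X : ℕ, X₀ ≤ X → ∀ N : ℕ,
      Real.log X ^ A ≤ (b : ℝ) ^ N → (b : ℝ) ^ (2 * N) ≤ κ * X →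
      ∀ 𝒬 : Finset ℕ, (∀ n ∈ 𝒬, IsPal b N n) → c * (b : ℝ) ^ N ≤ (𝒬.card : ℝ) →
      κ * (X : ℝ) ^ J ≤ (({k ∈ Fintype.piFinset (fun _ : Fin J => Icc 1 X) |
        Many I a t r 𝒬 (b ^ N / Real.log X ^ A) k}.card : ℕ) : ℝ) := by
  obtain ⟨K, B, h1⟩ := Pool.Agent.Helper74.FB.palDenseJ J r hr
  refine ⟨K, B + 1, fun b hb I a t hI hadm c hc => ?_⟩
  obtain ⟨hdist, hne, hcov⟩ := hadm
  have hb0 : 0 < b := by omega
  have hbr : (0 : ℝ) < b := by exact_mod_cast hb0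
  obtain ⟨κ, hκ, X₀, h2⟩ := h1 b hb I hI a t hne hdist hcov (c / b) (by positivity)
  have tN : Filter.Tendsto (fun N : ℕ => (N : ℝ)) Filter.atTop Filter.atTop :=
    tendsto_natCast_atTop_atTop
  have hlog : Filter.Tendsto (fun N : ℕ => Real.log (N : ℝ)) Filter.atTop Filter.atTop :=
    Real.tendsto_log_atTop.comp tN
  obtain ⟨X₁, hX₁⟩ := Filter.eventually_atTop.1 (hlog.eventually_ge_atTop 2)
  refine ⟨κ, hκ, max X₀ X₁, fun X hX N hN1 hN2 𝒬 h𝒬 hcard => ?_⟩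
  have hL := hX₁ X ((le_max_right _ _).trans hX)
  have hN : 1 ≤ N := by
    by_contra hcon
    have h0 : N = 0 := by omega
    rw [h0, pow_zero] at hN1
    have h3 : Real.log X ≤ Real.log X ^ (B + 1) := le_self_pow₀ (by linarith) (by omega)
    linarith
  have hLB : Real.log X ^ B ≤ Real.log X ^ (B + 1) := pow_le_pow_right₀ (by linarith) (by omega)
  obtain ⟨y, hy, R₁, hR₁, hRc, hR₁Q⟩ := Pool.Agent.Helper74.FB.pal_pigeon hb N hN 𝒬 h𝒬
  have hmain := h2 X ((le_max_left _ _).trans hX) N hN (hLB.trans hN1) hN2 y hy R₁ hR₁ (by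
    refine le_trans ?_ hRc
    rw [div_mul_eq_mul_div]
    exact div_le_div_of_nonneg_right hcard hbr.le)
  refine hmain.trans ?_
  rw [Nat.cast_le]
  apply card_le_card
  intro k hk
  obtain ⟨hk1, -, P, hP, hPc, hcl⟩ := mem_filter.1 hk
  refine mem_filter.2 ⟨hk1, P, hP, hPc, ?_⟩
  have e1 : (b : ℝ) ^ N / Real.log X ^ (B + 1) ≤ (b : ℝ) ^ N / Real.log X ^ B :=
    div_le_div_of_nonneg_left (by positivity) (by positivity) hLB
  refine e1.trans (hcl.trans ?_)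
  rw [Nat.cast_le]
  refine card_le_card_of_injOn (fun w => Pool.Agent.Helper74.FB.outp b N 0 w + b ^ N * y) ?_
    (Pool.Agent.Helper74.FB.outp_inj hb0 N y).injOn
  intro w hw
  obtain ⟨hw1, hw2⟩ := mem_filter.1 (Finset.mem_coe.1 hw)
  exact Finset.mem_coe.2 (mem_filter.2 ⟨hR₁Q w hw1, fun j i hi => hw2 j i hi⟩)

end Pool.Agent.Results.MP_e8d2ce_nt.SimultaneousPrimesAtPalindromes
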